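import Pool.Agent.helper62.HH.SpecD1
import Pool.Agent.helper53.IR.BDS
import Pool.Agent.helper98.IR.LFX

/-!
# Project HH, row HBD: the bad boxes
-/

set_option autoImplicit false

open scoped MatrixGroups ContDiff Topology UpperHalfPlane ComplexConjugate
open UpperHalfPlane MeasureTheory Filter Set

namespace Pool.Agent.HH

open Pool.Agent.RS
open Pool.Agent.MS (bq BB BA SF pf)
open Pool.Agent.HV (FW)

lemma HBD_GY (C C' : ℝ) (m : ℕ) (Y : Set ℝ) (hC : C ≤ C') (h : GY C m Y) : GY C' m Y := by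
  refine ⟨h.ms, h.sb, h.v0.trans ?_, fun v => (h.v1 v).trans ?_, fun i j hij hj v K hK => (h.cl i j hij hj v K hK).trans ?_⟩ <;>
    exact mul_le_mul_of_nonneg_right hC (Real.exp_pos _).le

lemma HBD_GW (C C' : ℝ) (m L : ℕ) (W : Finset ℤ) (hC : C ≤ C') (h : GCd C eta 4000 m L W) : GW C' m L W := by
  intro i hi k0
  have h1 := h i hi k0
  have h2 : (((4000 : ℕ) : ℝ)) = 4000 := by norm_num
  rw [h2] at h1
  exact h1.trans (mul_le_mul_of_nonneg_right hC (Real.exp_pos _).le)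

lemma HBD_FG (Γ : Subgroup SL(2, ℝ)) (Af : ℕ → Finset SL(2, ℝ)) (b : ℝ) (m G : ℕ) (γ : Γ) (h : SL(2, ℝ)) (hh : h ∈ FG Γ Af b m G) :
    (γ : SL(2, ℝ)) * h ∈ FG Γ Af b m G := by
  intro i hi
  have h1 := hh i hi
  rw [mul_assoc]
  exact (IR.LFX_FW Γ (Af i) b _ γ _).2 h1

lemma HBD_q (X ep ε2 Λ2 q1 q2 : ℝ) (i : ℤ) (hε2 : 0 < ε2) (hX1 : 0 ≤ X) (hX2 : X < q1) (hq : q1 = Λ2 * ep * ε2) (hep : 0 ≤ Λ2 * ep) (hi : |i| ≤ 400)
    (_ : q2 = 0) : |((⌊X / ε2⌋ + i : ℤ) : ℝ)| ≤ Λ2 * ep + 401 := by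
  have h1 : 0 ≤ X / ε2 := div_nonneg hX1 hε2.le
  have h2 : X / ε2 ≤ Λ2 * ep := by
    rw [div_le_iff₀ hε2]
    linarith
  have h3 : (0 : ℝ) ≤ (⌊X / ε2⌋ : ℤ) := by exact_mod_cast Int.floor_nonneg.2 h1
  have h4 : ((⌊X / ε2⌋ : ℤ) : ℝ) ≤ X / ε2 := Int.floor_le _
  have h5 : |(i : ℝ)| ≤ 400 := by exact_mod_cast hi
  have h6 := abs_le.1 h5
  push_cast
  rw [abs_le]
  constructor <;> linarith [h6.1, h6.2]

theorem HBD_proof (hNET : IR.NET_stmt) (hCNT : IR.CNT_stmt) (hGCW : GCW_stmt) (hGLC : RS.GLC_stmt) : HBD_stmt := by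
  classical
  intro Γ hΓ hHAL a Λ2 C3 ha ha1 hΛ hC3
  obtain ⟨Z, hZ⟩ := hNET Γ (a / 8) hΓ (by linarith)
  obtain ⟨C1, hC1, hCN⟩ := hCNT Γ hΓ
  have h2a : 0 < 2 / a := by positivity
  obtain ⟨K, hK⟩ : ∃ K : ℝ, K = Λ2 + 2 / a + 1 := ⟨_, rfl⟩
  have hK1 : 1 ≤ K := by rw [hK]; linarith
  obtain ⟨C4, hC4, hGW⟩ := hGCW Γ hΓ K hK1
  have hlM : ∀ s t, lM (s + t) = lM s * lM t := hGLC.2.2.2.2.2.2.2.2.2.2.2.2.1
  have hCL : 1 ≤ C1 * Λ2 := one_le_mul_of_one_le_of_one_le hC1 hΛ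
  obtain ⟨Cc, hCc⟩ : ∃ Cc : ℝ, Cc = C1 * Λ2 + C1 + K + C4 + C3 + (Λ2 + 401) := ⟨_, rfl⟩
  obtain ⟨m1, hHA⟩ := hHAL Cc (by linarith)
  have hZ0 : (0 : ℝ) ≤ Z.card := Nat.cast_nonneg _
  refine ⟨Z.card + 1, m1, by linarith, ?_⟩
  intro m ε2 Ap At As Af hm hε2 hcp hct hcs hcf
  obtain ⟨p, hp⟩ : ∃ p : ℕ, p = 4000 * m := ⟨_, rfl⟩
  have hpr : (p : ℝ) = 4000 * m := by rw [hp]; push_cast; ring
  rw [← hp] at hε2 ⊢
  have hb : (0 : ℝ) < 16 * a := by linarith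
  have hb1 : 16 * a ≤ 1 / 100 := by linarith
  have hE := Real.exp_pos (p : ℝ)
  have hE1 : 1 ≤ Real.exp (p : ℝ) := Real.one_le_exp (Nat.cast_nonneg _)
  have hEE : ∀ x : ℝ, 0 ≤ Real.exp x := fun x => (Real.exp_pos x).le
  obtain ⟨L, hL⟩ : ∃ L : ℕ, L = ⌈(Λ2 + 2 / a) * Real.exp p⌉₊ := ⟨_, rfl⟩
  have hLlow : (Λ2 + 2 / a) * Real.exp p ≤ L := by rw [hL]; exact Nat.le_ceil _
  have h2a' : 3200 ≤ 2 / a := by
    rw [le_div_iff₀ ha]
    linarith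
  have hLr : (100 : ℝ) ≤ L := by nlinarith
  have hLE : Real.exp p ≤ L := by nlinarith
  have hLup : (L : ℝ) ≤ K * Real.exp p := by
    have h1 : (L : ℝ) < (Λ2 + 2 / a) * Real.exp p + 1 := by
      rw [hL]; exact Nat.ceil_lt_add_one (by positivity)
    rw [hK]
    linarith
  have hL0 : (0 : ℝ) < L := by linarith
  have hε2p : 0 < ε2 := by rw [hε2]; exact div_pos (Real.exp_pos _) (by linarith)
  choose S P0 hSTR hOCC using fun y : SL(2, ℝ) => hCN (16 * a) Λ2 ε2 p m Ap At As y hb hb1 hΛ hε2 (by omega)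
  let P : SL(2, ℝ) → ℤ → Finset ℤ := fun y I => (P0 y I).filter (fun q => |(q : ℝ)| ≤ Λ2 * Real.exp p + 401)
  let W : SL(2, ℝ) → Finset ℤ := fun y => (Finset.Icc (-(L : ℤ)) L).filter (fun k => 16 * (|k| + 1) ≤ (L : ℤ) ∧
    ∃ w τ x : ℝ, (k : ℝ) / L ≤ w ∧ w ≤ (k + 1) / L ∧ |w| ≤ 1 / 10 ∧ |τ| ≤ 1 / 10 ∧ |x| ≤ 1 / 10 ∧ y * lM w * aM τ * nM x ∈ FG Γ Af (16 * a) m 4000)
  have hSTR' : ∀ y, IR.STR (S y) (P y) (fun I => I * Real.exp (-(2 * p))) (Cc * Real.exp ((1 / 2 + eta) * (2 * (4000 * m)))) (Cc * Real.exp ((1 / 2 + eta) * (7999 * m)))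
      (Cc * Real.exp ((1 / 2 + eta) * (4000 * m))) (Real.exp (-m)) := by
    intro y
    have hs := hSTR y
    have hC1c : C1 ≤ Cc := by rw [hCc]; linarith
    have hC1c' : C1 * Λ2 ≤ Cc := by rw [hCc]; linarith
    have hC0 : 0 ≤ C1 := by linarith
    have hC0' : 0 ≤ C1 * Λ2 := by linarith
    have hCc0 : 0 ≤ Cc := by linarith
    refine ⟨hs.m0.trans (mul_le_mul hC1c hct (Nat.cast_nonneg _) hCc0), ?_, hs.x0, ?_, by positivity, by positivity⟩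
    · intro i hi
      have h1 : (((P y i).card : ℕ) : ℝ) ≤ ((P0 y i).card : ℕ) := by exact_mod_cast Finset.card_filter_le _ _
      exact h1.trans ((hs.f0 i hi).trans (mul_le_mul hC1c' hcp (Nat.cast_nonneg _) hCc0))
    · intro i hi
      exact (hs.m1 i hi).trans (mul_le_mul hC1c hcs (Nat.cast_nonneg _) hCc0)
  have hPq : ∀ y, ∀ i ∈ S y, ∀ q ∈ P y i, |(q : ℝ)| ≤ Cc * L := by
    intro y i hi q hq
    have h1 := (Finset.mem_filter.1 hq).2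
    have h2 : Λ2 * Real.exp p + 401 ≤ (Λ2 + 401) * Real.exp p := by nlinarith
    have h3 : (Λ2 + 401) * Real.exp p ≤ Cc * L := mul_le_mul (by rw [hCc]; linarith) hLE hE.le (by linarith)
    linarith
  have hW1 : ∀ y, ∀ k ∈ W y, 16 * (|k| + 1) ≤ (L : ℤ) := fun y k hk => (Finset.mem_filter.1 hk).2.1
  have h4000 : (((4000 : ℕ) : ℝ)) = 4000 := by norm_num
  have hW2 : ∀ y, GW Cc m L (W y) := by
    intro y
    refine HBD_GW C4 Cc m L _ (by rw [hCc]; linarith) (hGW (16 * a) eta 4000 m L Af y (W y) hb hb1 ?_ ?_ ?_ ?_)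
    · rw [h4000, ← hpr]; exact hLE
    · rw [h4000, ← hpr]; exact hLup
    · rw [h4000]; exact hcf
    · intro k hk
      exact (Finset.mem_filter.1 hk).2.2
  choose Q hQW hQc hQ using fun y : SL(2, ℝ) => hHA m L (S y) (P y) (fun I => I * Real.exp (-(2 * p))) (W y) hm (by rw [← hpr]; exact hLE)
    (by rw [← hpr]; exact hLup.trans (mul_le_mul_of_nonneg_right (by rw [hCc]; linarith) hE.le)) (hSTR' y) (hPq y) (hW1 y) (hW2 y)
  refine ⟨Z.biUnion (fun y => (Q y).image (fun k : ℤ => y * lM (k / L))), ?_, ?_⟩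
  · have h1 : (Z.biUnion (fun y => (Q y).image (fun k : ℤ => y * lM (k / L)))).card ≤ ∑ y ∈ Z, (Q y).card :=
      Finset.card_biUnion_le.trans (Finset.sum_le_sum fun y _ => Finset.card_image_le)
    have h2 : ((Z.biUnion (fun y => (Q y).image (fun k : ℤ => y * lM (k / L)))).card : ℝ) ≤ ∑ y ∈ Z, ((Q y).card : ℝ) := by
      exact_mod_cast h1
    have h3 : ∑ y ∈ Z, ((Q y).card : ℝ) ≤ Z.card * Real.exp ((1 / 2 - 1 / 4000) * (4000 * m)) := by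
      refine (Finset.sum_le_sum fun y _ => hQc y).trans ?_
      rw [Finset.sum_const, nsmul_eq_mul]
    refine (h2.trans h3).trans (mul_le_mul_of_nonneg_right (by linarith) (hEE _))
  · intro h hFG hh
    obtain ⟨y, hyZ, γ, w, τ, x, hw, hτ, hx, hγ⟩ := hZ h
    have hk1 : ((⌊w * L⌋ : ℤ) : ℝ) ≤ w * L := Int.floor_le _
    have hk2 : w * L < (⌊w * L⌋ : ℤ) + 1 := Int.lt_floor_add_one _
    have hkL : ((⌊w * L⌋ : ℤ) : ℝ) / L ≤ w := by rw [div_le_iff₀ hL0]; exact hk1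
    have hkU : w ≤ ((⌊w * L⌋ : ℤ) + 1) / L := by rw [le_div_iff₀ hL0]; exact hk2.le
    have hwL : |w * L| ≤ L / 1600 := by
      rw [abs_mul, abs_of_pos hL0]
      have : |w| * L ≤ a / 8 * L := mul_le_mul_of_nonneg_right hw hL0.le
      have h2 : a / 8 * L ≤ 1 / 1600 * L := mul_le_mul_of_nonneg_right (by linarith) hL0.le
      linarith
    have hkabs : |((⌊w * L⌋ : ℤ) : ℝ)| ≤ L / 1600 + 1 := by
      have := abs_le.1 hwL
      rw [abs_le]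
      constructor <;> linarith
    have hk16 : 16 * (|⌊w * L⌋| + 1) ≤ (L : ℤ) := by
      have h2 : (16 * (|((⌊w * L⌋ : ℤ) : ℝ)| + 1)) ≤ (L : ℝ) := by linarith
      exact_mod_cast h2
    have hkI : ⌊w * L⌋ ∈ Finset.Icc (-(L : ℤ)) L := by
      rw [Finset.mem_Icc]
      have h1 : |⌊w * L⌋| ≤ (L : ℤ) := by omega
      exact abs_le.1 h1
    have hkW : ⌊w * L⌋ ∈ W y := by
      refine Finset.mem_filter.2 ⟨hkI, hk16, w, τ, x, hkL, hkU, by linarith, by linarith, by linarith, ?_⟩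
      rw [← hγ]
      exact HBD_FG Γ Af (16 * a) m 4000 γ h hFG
    have hkQ : ⌊w * L⌋ ∉ Q y := by
      intro hk
      apply hh
      refine ⟨y * lM ((⌊w * L⌋ : ℤ) / L), Finset.mem_biUnion.2 ⟨y, hyZ, Finset.mem_image.2 ⟨_, hk, rfl⟩⟩, γ, ?_⟩
      have e1 : (y * lM ((⌊w * L⌋ : ℤ) / L))⁻¹ * (γ : SL(2, ℝ)) * h = lM (w - (⌊w * L⌋ : ℤ) / L) * aM τ * nM x := by
        have e2 : lM w = lM ((⌊w * L⌋ : ℤ) / L) * lM (w - (⌊w * L⌋ : ℤ) / L) := by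
          rw [← hlM]; congr 1; ring
        rw [mul_assoc, hγ, e2]
        group
      rw [e1]
      have hinv : 1 / (L : ℝ) ≤ a / 2 * Real.exp (-p) := by
        rw [Real.exp_neg, div_le_iff₀ hL0]
        have h1 : 2 / a * Real.exp p ≤ L := by
          have : 0 ≤ Λ2 * Real.exp p := by positivity
          linarith
        have h2 : a / 2 * (Real.exp (p : ℝ))⁻¹ * (2 / a * Real.exp p) = 1 := by field_simp
        rw [← h2]
        exact mul_le_mul_of_nonneg_left h1 (by positivity)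
      apply IR.BDS_bq a _ τ x _ ha (by linarith) (by linarith) _ (Real.exp_pos _) (Real.exp_le_one_iff.2 (by simp)) hτ hx
      have h3 : w - (⌊w * L⌋ : ℤ) / L ≤ 1 / L := by
        have : ((⌊w * L⌋ : ℤ) + 1) / (L : ℝ) = (⌊w * L⌋ : ℤ) / (L : ℝ) + 1 / L := by ring
        linarith
      exact h3.trans hinv
    refine ⟨y, γ, w, τ, x, S y, P y, by linarith, by linarith, by linarith, hγ, ?_, (hSTR y).x0, ?_⟩
    · intro X hX hocc
      obtain ⟨h1, h2⟩ := hOCC y X hX hocc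
      refine ⟨h1, fun i hi => Finset.mem_filter.2 ⟨h2 i hi, ?_⟩⟩
      have hf1 : ((⌊X * Real.exp (2 * p)⌋ : ℤ) : ℝ) ≤ X * Real.exp (2 * p) := Int.floor_le _
      have hf2 : X * Real.exp (2 * p) < (⌊X * Real.exp (2 * p)⌋ : ℤ) + 1 := Int.lt_floor_add_one _
      have hee : Real.exp (2 * (p : ℝ)) * Real.exp (-(2 * p)) = 1 := by
        rw [← Real.exp_add]; simp
      have hEn := Real.exp_pos (-(2 * (p : ℝ)))
      refine HBD_q _ (Real.exp p) ε2 Λ2 (Real.exp (-(2 * p))) 0 i hε2p ?_ ?_ ?_ (by positivity) hi rfl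
      · have h3 := mul_le_mul_of_nonneg_right hf1 hEn.le
        rw [mul_assoc, hee, mul_one] at h3
        linarith
      · have h3 := mul_lt_mul_of_pos_right hf2 hEn
        rw [mul_assoc, hee, mul_one, add_mul, one_mul] at h3
        linarith
      · rw [hε2]
        have e1 : Real.exp (-(2 * (p : ℝ))) = Real.exp p * Real.exp (-(3 * p)) := by
          rw [← Real.exp_add]
          congr 1
          ring
        rw [e1]
        field_simp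
    · intro κ Y hκ1 hκ2 hY
      exact hQ y ⌊w * L⌋ hkW hkQ w κ Y hkL hkU hκ1 hκ2 (HBD_GY C3 Cc m Y (by rw [hCc]; linarith) hY)

end Pool.Agent.HH
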