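import Pool.Agent.helper62.HH.SpecD1
import Pool.Agent.helper98.IR.LFX

/-!
# Project HH, row HLF
-/

set_option autoImplicit false

open scoped MatrixGroups ContDiff Topology UpperHalfPlane ComplexConjugate
open UpperHalfPlane MeasureTheory Filter Set

namespace Pool.Agent.HH

open Pool.Agent.RS
open Pool.Agent.MS (bq BB BA SF pf)
open Pool.Agent.HV (FW)
open Pool.Agent.IR (LFX_FW LFX_WS LFX_om LFX_exp)

theorem HLF_proof (hHBD : HBD_stmt) (hGEO : IR.GEO_stmt) (hTRF : IR.TRF_stmt) (hBLK : IR.BLK_stmt) : HLF_stmt := by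
  classical
  intro Γ hΓ hAL a Λ2 C3 ha0 ha hΛ hC3
  obtain ⟨C0, m1, hC0, hB⟩ := hHBD Γ hΓ hAL a Λ2 C3 ha0 ha hΛ hC3
  refine ⟨C0, max m1 (max 2 ⌈Λ2⌉₊), hC0, ?_⟩
  intro m εc Ap At As Af hm hεc hcp hct hcs hcf
  have hm1 : m1 ≤ m := le_trans (le_max_left _ _) hm
  have hm2 : max 2 ⌈Λ2⌉₊ ≤ m := le_trans (le_max_right _ _) hm
  obtain ⟨p, hpdef⟩ : ∃ p : ℕ, p = 4000 * m := ⟨_, rfl⟩
  have hmp : m ≤ p := by
    rw [hpdef]
    exact Nat.le_mul_of_pos_left m (by omega)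
  have hp : max 2 ⌈Λ2⌉₊ ≤ p := hm2.trans hmp
  have hp2 : 2 ≤ p := le_trans (le_max_left _ _) hp
  have hpΛ : Λ2 ≤ p := le_trans (Nat.le_ceil _) (by exact_mod_cast le_trans (le_max_right _ _) hp)
  have hΛp : 0 < Λ2 := by linarith
  have hpi : 0 < Real.pi := Real.pi_pos
  have hE : ∀ x : ℝ, 0 < Real.exp x := Real.exp_pos
  have hp0 : (0 : ℝ) ≤ p := Nat.cast_nonneg _
  rw [← hpdef] at hεc
  -- sizes
  have hep1 : 1 ≤ Real.exp (p : ℝ) := Real.one_le_exp hp0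
  obtain ⟨L, hLdef⟩ : ∃ L : ℕ, L = ⌈Λ2 * Real.exp p⌉₊ := ⟨_, rfl⟩
  have hL1 : Λ2 * Real.exp p ≤ L := by rw [hLdef]; exact Nat.le_ceil _
  have hL3 : (1 : ℝ) ≤ L := by nlinarith
  have hL100 : 1 ≤ L := by exact_mod_cast hL3
  have hL0 : (0 : ℝ) < L := by linarith
  obtain ⟨ε2, hε2⟩ : ∃ ε2 : ℝ, ε2 = Real.exp (-(3 * (p : ℝ))) / Λ2 := ⟨_, rfl⟩
  have hε2pos : 0 < ε2 := by rw [hε2]; exact div_pos (hE _) hΛp
  have hε2c : ε2 = 2 * εc / Real.pi := by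
    rw [hε2, hεc]
    field_simp
  have hεcpos : 0 < εc := by rw [hεc]; exact mul_pos (div_pos hpi (by linarith)) (hE _)
  have hεc100 : εc ≤ 1 / 100 := by
    refine le_trans ?_ (LFX_exp p hp2)
    rw [hεc]
    refine mul_le_mul_of_nonneg_right ?_ (hE _).le
    exact div_le_div_of_nonneg_left hpi.le (by norm_num) (by linarith)
  have h4p : Real.exp (-(4 * p)) ≤ ε2 := by
    rw [hε2, le_div_iff₀ hΛp]
    have e : Real.exp (-(3 * (p : ℝ))) = Real.exp (-(4 * p)) * Real.exp p := by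
      rw [← Real.exp_add]
      congr 1
      ring
    rw [e]
    refine mul_le_mul_of_nonneg_left ?_ (hE _).le
    have := Real.add_one_le_exp (p : ℝ)
    linarith
  have h2p : Real.exp (-(2 * p)) ≤ L * ε2 := by
    have e : Real.exp (-(2 * (p : ℝ))) = Λ2 * Real.exp p * ε2 := by
      rw [hε2]
      have e1 : Real.exp (-(2 * (p : ℝ))) = Real.exp p * Real.exp (-(3 * p)) := by
        rw [← Real.exp_add]
        congr 1
        ring
      rw [e1]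
      field_simp
    rw [e]
    exact mul_le_mul_of_nonneg_right hL1 hε2pos.le
  obtain ⟨Ab, hAb, hbad⟩ := hB m ε2 Ap At As Af hm1 (by rw [← hpdef]; exact hε2) hcp hct hcs hcf
  rw [← hpdef] at hbad ⊢
  refine ⟨Ab, hAb, ?_⟩
  intro l l0 g J cj Y hl hl0 hl0e hJC hY
  have hY1 := hY.ms
  have hY01 := hY.sb
  rcases J.eq_empty_or_nonempty with hJ | ⟨j0, hj0⟩
  · subst hJ
    simp
  obtain ⟨hj0b, u0, hu0, x0, τ0, o0, e0, he0, hx0, hτ0, ho0, hmem0⟩ := hJC j0 hj0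
  obtain ⟨y, γ, w, τ1, x1, S, P, hw, hτ1, hx1, hγ, hSP, hS3, hAL1⟩ := hbad _ hmem0.1.2 hmem0.2
  obtain ⟨c0, lam, hlam1, hlam2, hX⟩ := hGEO Γ (IR.WS Γ Ap At As (16 * a) p m) εc l l0 w τ1 x1 g y _ γ J j0 (LFX_WS Γ Ap At As (16 * a) p m)
    hεcpos hεc100 hl hl0 hl0e hw hτ1 hx1 hγ hj0b ⟨u0, hu0, x0, τ0, o0, e0, he0, hx0, hτ0, ho0, rfl⟩ (by
      intro j hj
      obtain ⟨hjb, u, hu, x, τ, o, e, he, hx, hτ, ho, hmem⟩ := hJC j hj
      exact ⟨hjb, u, hu, x, τ, o, e, he, hx, hτ, ho, hmem.1.1⟩)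
  have hlam0 : 0 < lam := by linarith
  have hκ1 : (1 : ℝ) / 2 ≤ 1 / lam := one_div_le_one_div_of_le hlam0 hlam2
  have hκ2 : 1 / lam ≤ 2 := by
    rw [div_le_iff₀ hlam0]
    linarith
  have hsum := hAL1 (1 / lam) Y hκ1 hκ2 hY
  have hw' : |w| ≤ 1 / 16 := by linarith
  choose! X hX2 hXocc hXest using hX
  let sI : ℤ → ℝ := fun I => 1 / lam * IR.om w (I * Real.exp (-(2 * (p : ℝ))))
  let cI : ℤ → ℝ := fun I => 1 / lam / ε2 * (I * Real.exp (-(2 * (p : ℝ))) / (1 - w * (I * Real.exp (-(2 * (p : ℝ))))) - c0)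
  let Jb : ℤ → Finset ℤ := fun I => J.filter (fun j => ⌊X j * Real.exp (2 * (p : ℝ))⌋ = I)
  have hblk := hBLK S Jb P cI sI Y J cj hY1 hY01 (fun I hI => LFX_om w _ (1 / lam) hw' (hS3 I hI) hκ1 (by linarith)) (by
      intro I hI j hj ξ hξ
      obtain ⟨hjJ, hjI⟩ := Finset.mem_filter.1 hj
      obtain ⟨i, hi, h1, h2⟩ := hTRF εc ε2 w w (1 / lam) c0 lam (X j) p L j hεcpos hε2c hw' hw' hL100 (by simp) hlam1 hlam2 le_rfl
        (by
          have h3 : 0 ≤ 1 / lam * (1 / (L : ℝ)) := by positivity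
          nlinarith) (hX2 j hjJ)
        h4p h2p (hXest j hjJ) ξ hξ
      obtain ⟨-, h3⟩ := hSP (X j) (hX2 j hjJ) (hXocc j hjJ)
      rw [← hjI]
      exact ⟨_, h3 i hi, h1, h2⟩)
    (by
      intro j hj
      exact ⟨⌊X j * Real.exp (2 * (p : ℝ))⌋, (hSP (X j) (hX2 j hj) (hXocc j hj)).1, Finset.mem_filter.2 ⟨hj, rfl⟩⟩)
  refine hblk.trans ?_
  refine mul_le_mul_of_nonneg_right ?_ (Finset.sum_nonneg fun j _ => by positivity)
  linarith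

end Pool.Agent.HH
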