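import Pool.Agent.helper25.IR.All
import Pool.Agent.helper63.HH.CTG
import Pool.Agent.helper66.HH.GCW
import Pool.Agent.helper62.HH.HBD
import Pool.Agent.helper62.HH.HLF

/-!
# Project HH, block D, first half: assembly
-/

set_option autoImplicit false

namespace Pool.Agent.HH

theorem A_CTG : CTG_stmt := CTG_proof
theorem A_GCW : GCW_stmt := GCW_proof A_CTG RS.A_GLC
theorem A_HBD : HBD_stmt := HBD_proof IR.A_NET IR.A_CNT A_GCW RS.A_GLC
theorem A_HLF : HLF_stmt := HLF_proof A_HBD IR.A_GEO IR.A_TRF IR.A_BLK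

end Pool.Agent.HH
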