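import Pool.Agent.helper52.IR.Spec

/-!
# MP_07c750 (quantum unique ergodicity, weight 10), project HH (helper17), block D, first half (helper62): the bad boxes and the leaf inequality, rows `hh:X`

THEOREM (HH). On every closed hyperbolic surface every quantum limit has an invariant lift `μ` with `μ {local entropy ≤ 1/2 + κ0} ≤ 1/2`, `κ0 > 0` absolute.

The words of the flow are taken over `[-3p, p]` (past and future of the point `h`), `p = G m`, `G` fixed, `m → ∞`. As in project IR (`Pool/Agent/helper52/IR/Spec.lean`, all rows proved: `import Pool.Agent.helper25.IR.All` gives `IR.A_XXX`): the points `g nM x` of a stable horocycle, words over `[-2p, 0]` give the blocks `I`,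
words over `[-3p, -2p]` the cells of a block. NEW: (1) the point `h` also has its FUTURE words over the windows `[i m, p]`, `i < G`, in the boxes `Af i` (`FG`), so the admissible `w` (the unstable coordinate in a box `y lM w aM τ nM x`) have dimension `≤ 1/2 + η` at all scales of the grid (`GCd`, row GCW); (2) the leaf set `Y` has dimension
`≤ 1/2 + η` at all scales of the grid (`GY`); (3) the PURE STATEMENT `HAL_stmt` (`Pool/Agent/helper17/HH/SpecH.lean`; blocks R, B, A of helper17: discretised ring theorem): the bad `w` among the admissible ones are covered by `e^((1/2 - 1/4000) p)` cells, so (HBD, in `Pool/Agent/helper62/HH/SpecD1.lean`) the bad points are covered by few boxes of length `p`.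
THIS FILE: rows CTG, GCW (for every `G`, `η`). `GCd C eta 4000 m L W` is `GW C m L W`.

RULES. Row `hh:XXX`: file `Pool/Agent/<seat>/HH/XXX.lean`, `import Pool.Agent.helper62.HH.SpecD` (and what you need), `set_option autoImplicit false`, namespace `Pool.Agent.HH`, auxiliary lemmas prefixed `XXX_`, theorem `XXX_proof (h : YYY_stmt) .. : XXX_stmt` with the rows listed in `from` as hypotheses (rows of IR as `(h : IR.NET_stmt)` etc.,
RS as `(h : RS.GLC_stmt)`). No straight double quotes, no `convert`, `congr!`, `native_decide`.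
-/

open scoped MatrixGroups ContDiff Topology UpperHalfPlane ComplexConjugate
open UpperHalfPlane MeasureTheory Filter Set

set_option autoImplicit false

namespace Pool.Agent.HH

open Pool.Agent.RS
open Pool.Agent.MS (bq BB BA SF pf)
open Pool.Agent.HV (FW)
open Pool.Agent.EN (XG MG mkX mkM fl pr)
open Pool.Agent.ER (Low LowJ)

noncomputable section

/-! ## Grid bounds -/

/-- grid bounds for a set of cells of length `1/L`: dimension `≤ 1/2 + η` at the scales `e^(-i m)`, `i ≤ G` -/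
def GCd (C η : ℝ) (G m L : ℕ) (W : Finset ℤ) : Prop :=
  ∀ i : ℕ, i ≤ G → ∀ k0 : ℤ, ((W.filter fun k : ℤ => |(k : ℝ) - k0| ≤ L * Real.exp (-(i * m))).card : ℝ) ≤ C * Real.exp ((1 / 2 + η) * ((G - i) * m))

/-! ## The admissible cells -/

/-- **Row CTG** (counting on an unstable arc, with a displacement along the flow and the stable direction; short-medium; the proof of helper2/IR/CTF.lean; from RS.GLC). `k1 = y'⁻¹ γ g lM v aM τ nM x`, `bq b b (b e^(-k)) k1`. Two elements with the same `y'`, `γ`: `k1⁻¹ k1' = nM(-x) aM(-τ) lM(v' - v) aM τ' nM x'` has the lower left entry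
`e^((τ + τ')/2) (v' - v)`, at most `3 b e^(-k)` in absolute value: `|v' - v| ≤ e^(-k)/2`, at most `2` cells. The number of `γ` for fixed `y'`: `γ' γ⁻¹ = y' (bounded) y'⁻¹`, at most `N(Γ)` (as in CTF). -/
def CTG_stmt : Prop := ∀ Γ : Subgroup SL(2, ℝ), QU.SurfaceGroup Γ → ∃ C : ℝ, 0 < C ∧ ∀ (b k : ℝ) (A : Finset SL(2, ℝ)) (g : SL(2, ℝ)) (T : Finset ℤ), 0 < b → b ≤ 1 / 100 → 0 ≤ k →
  (∀ m ∈ T, ∃ v τ x : ℝ, |v| ≤ 4 ∧ |τ| ≤ 1 / 10 ∧ |x| ≤ 1 / 10 ∧ m ≤ v * Real.exp k ∧ v * Real.exp k < m + 1 ∧ g * lM v * aM τ * nM x ∈ FW Γ A b (Real.exp (-k))) → (T.card : ℝ) ≤ C * A.card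

/-- the points with the future words over `[i m, G m]` in the boxes `Af i`, `i < G` -/
def FG (Γ : Subgroup SL(2, ℝ)) (Af : ℕ → Finset SL(2, ℝ)) (b : ℝ) (m G : ℕ) : Set SL(2, ℝ) := {h | ∀ i : ℕ, i < G → h * aM (i * m) ∈ FW Γ (Af i) b (Real.exp (-(((G : ℝ) - i) * m)))}

/-- **Row GCW** (the admissible cells have dimension `≤ 1/2 + η`; short-medium; from CTG, RS.GLC). `i < G`: the cells with `|k - k0| ≤ L e^(-im)`: `w = w0 + e^(-im) z`, `w0 = k0/L`, `|z| ≤ 2` (`1/L ≤ e^(-Gm)`). `y lM w aM τ nM x aM(im) = (y lM w0 aM(im)) lM z aM τ nM(e^(-im) x)` (`lM u aM t = aM t lM(e^t u)`, `nM x aM t = aM t nM(e^(-t) x)`) is in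
`FW Γ (Af i) b e^(-(G-i)m)`: CTG with `k = (G - i) m`: the `z` are in at most `C1 #(Af i)` cells of length `e^(-(G-i)m)`, that is `e^(-Gm)` in `w`; each contains at most `L e^(-Gm) + 2 ≤ C2 + 2` values of `k` (`k/L ≤ w ≤ (k+1)/L`). `i = G`: at most `2 L e^(-Gm) + 1 ≤ 2 C2 + 1` values of `k`. `C = (C1 + 1)(2 C2 + 4)`. -/
def GCW_stmt : Prop := ∀ Γ : Subgroup SL(2, ℝ), QU.SurfaceGroup Γ → ∀ C2 : ℝ, 1 ≤ C2 → ∃ C : ℝ, 1 ≤ C ∧ ∀ (b η : ℝ) (G m L : ℕ) (Af : ℕ → Finset SL(2, ℝ)) (y : SL(2, ℝ)) (W : Finset ℤ), 0 < b → b ≤ 1 / 100 → Real.exp (G * m) ≤ L → L ≤ C2 * Real.exp (G * m) →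
  (∀ i : ℕ, i < G → ((Af i).card : ℝ) ≤ Real.exp ((1 / 2 + η) * (((G : ℝ) - i) * m))) →
  (∀ k ∈ W, ∃ w τ x : ℝ, (k : ℝ) / L ≤ w ∧ w ≤ (k + 1) / L ∧ |w| ≤ 1 / 10 ∧ |τ| ≤ 1 / 10 ∧ |x| ≤ 1 / 10 ∧ y * lM w * aM τ * nM x ∈ FG Γ Af b m G) → GCd C η G m L W

end

end Pool.Agent.HH
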