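import Pool.Agent.helper17.HH.SpecH
import Pool.Agent.helper62.HH.SpecD

/-!
# MP_07c750 (quantum unique ergodicity, weight 10), project HH (helper17), block D, first half (helper62): the bad boxes and the leaf inequality, rows `hh:HBD`, `hh:HLF`

Interface: `Pool/Agent/helper17/HH/SpecH.lean` (`eta`, `GW`, `GY`, `HAL_stmt`). `p = 4000 m`, `FG Γ Af b m 4000` = the points with the future words over `[i m, p]` in the boxes `Af i`. As in project IR (`Pool/Agent/helper52/IR/Spec.lean`, all rows proved), words over `[-3p, p]`.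

RULES. Row `hh:XXX`: file `Pool/Agent/<seat>/HH/XXX.lean`, `import Pool.Agent.helper62.HH.SpecD1` (and what you need), `set_option autoImplicit false`, namespace `Pool.Agent.HH`, auxiliary lemmas prefixed `XXX_`, theorem `XXX_proof (h : YYY_stmt) .. : XXX_stmt` with the rows listed in `from` as hypotheses (rows of IR as `(h : IR.NET_stmt)` etc.). No straight double quotes, no `convert`, `congr!`, `native_decide`.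
-/

open scoped MatrixGroups ContDiff Topology UpperHalfPlane ComplexConjugate
open UpperHalfPlane MeasureTheory Filter Set

set_option autoImplicit false

namespace Pool.Agent.HH

open Pool.Agent.RS
open Pool.Agent.MS (bq BB BA SF pf)
open Pool.Agent.HV (FW)
open Pool.Agent.EN (XG MG mkX mkM fl pr)
open Pool.Agent.ER (Low LowJ)

noncomputable section

/-- **Row HBD** (the bad set; medium; compare helper53/IR/BDS.lean; from IR.NET, IR.CNT, GCW). `p = 4000 m`, `b = 16 a`. `Z` from NET for `a/8`; for `y ∈ Z`: `S`, `P0` from CNT (`s1 = m ≤ 2p`), `P I` = the `q ∈ P0 I` with `|q| ≤ Λ2 e^p + 401` (the values in the conclusion satisfy this: `0 ≤ X - ⌊X e^(2p)⌋ e^(-2p) < e^(-2p)`).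
`L = ⌈(Λ2 + 2/a) e^p⌉₊`, `e^p ≤ L ≤ (Λ2 + 2/a + 1) e^p`. `W_y` = the `k`, `|k| ≤ L`, `16 (|k| + 1) ≤ L`, for which there are `w ∈ [k/L, (k+1)/L]`, `|w|, |τ|, |x| ≤ a/8` with `y lM w aM τ nM x ∈ FG Γ Af (16a) m 4000`. GCW: `GCd C eta 4000 m L W_y`, that is `GW`. HAL with `C =` the maximum of all constants (STR is monotone in `M, M1, F`; `|q| ≤ C L`; `GY` is monotone in `C3`): `Q_y`.
`Ab` = the `y lM (k/L)`, `y ∈ Z`, `k ∈ Q_y`. If `h ∈ FG`, `h ∉ FW Γ Ab a e^(-p)`: `γ h = y lM w aM τ nM x` (NET, `|w|, |τ|, |x| ≤ a/8`), this point is in `FG` (`FG` is `Γ`-invariant), `k = ⌊w L⌋ ∈ W_y`; `(y lM (k/L))⁻¹ γ h = lM (w - k/L) aM τ nM x` satisfies `bq a a (a e^(-p))` (`1/L ≤ (a/2) e^(-p)`), so `k ∉ Q_y`. -/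
def HBD_stmt : Prop := ∀ Γ : Subgroup SL(2, ℝ), QU.SurfaceGroup Γ → HAL_stmt → ∀ (a Λ2 C3 : ℝ), 0 < a → a ≤ 1 / 1600 → 1 ≤ Λ2 → 1 ≤ C3 → ∃ (C : ℝ) (m0 : ℕ), 1 ≤ C ∧
  ∀ (m : ℕ) (ε2 : ℝ) (Ap At As : Finset SL(2, ℝ)) (Af : ℕ → Finset SL(2, ℝ)), m0 ≤ m → ε2 = Real.exp (-(3 * (4000 * m : ℕ))) / Λ2 → (Ap.card : ℝ) ≤ Real.exp ((1 / 2 + eta) * (4000 * m)) → (At.card : ℝ) ≤ Real.exp ((1 / 2 + eta) * (2 * (4000 * m))) →
    (As.card : ℝ) ≤ Real.exp ((1 / 2 + eta) * (7999 * m)) → (∀ i : ℕ, i < 4000 → ((Af i).card : ℝ) ≤ Real.exp ((1 / 2 + eta) * ((4000 - i) * m))) →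
    ∃ Ab : Finset SL(2, ℝ), (Ab.card : ℝ) ≤ C * Real.exp ((1 / 2 - 1 / 4000) * (4000 * m)) ∧ ∀ h : SL(2, ℝ), h ∈ FG Γ Af (16 * a) m 4000 → h ∉ FW Γ Ab a (Real.exp (-(4000 * m : ℕ))) →
      ∃ (y : SL(2, ℝ)) (γ : Γ) (w τ x : ℝ) (S : Finset ℤ) (P : ℤ → Finset ℤ), |w| ≤ 1 / 100 ∧ |τ| ≤ 1 / 100 ∧ |x| ≤ 1 / 100 ∧ (γ : SL(2, ℝ)) * h = y * lM w * aM τ * nM x ∧
        (∀ X : ℝ, |X| ≤ 2 → IR.occ (IR.WS Γ Ap At As (16 * a) (4000 * m) m) y X → ⌊X * Real.exp (2 * (4000 * m : ℕ))⌋ ∈ S ∧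
          ∀ i : ℤ, |i| ≤ 400 → ⌊(X - ⌊X * Real.exp (2 * (4000 * m : ℕ))⌋ * Real.exp (-(2 * (4000 * m : ℕ)))) / ε2⌋ + i ∈ P ⌊X * Real.exp (2 * (4000 * m : ℕ))⌋) ∧
        (∀ I ∈ S, |(I : ℝ) * Real.exp (-(2 * (4000 * m : ℕ)))| ≤ 3) ∧
        ∀ (κ : ℝ) (Y : Set ℝ), 1 / 2 ≤ κ → κ ≤ 2 → GY C3 m Y → ∑ I ∈ S, Real.sqrt (∫ v in Y, ∫ v' in Y, ‖IR.ps (P I) (κ * IR.om w (I * Real.exp (-(2 * (4000 * m : ℕ)))) * (v - v'))‖ ^ 2) ≤ Real.exp (-(4000 * m) / 1000000)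

/-- **Row HLF** (the leaf inequality for good points; medium; the proof of helper98/IR/LFX.lean; from HBD, IR.GEO, IR.TRF, IR.BLK). `p = 4000 m`. `m0` so large that `e^(-4p) ≤ ε2`, `εc ≤ 1/100`, `e^(-2p) ≤ L ε2` for `L = ⌈Λ2 e^p⌉₊ ≥ 1`. If `J` is empty: trivial. Otherwise `h0` = the point of `j0 ∈ J`: in `FG` and not in `FW Ab`, so `y, w, S, P` from HBD. GEO with `W` = the set in
the hypothesis (`Γ`-invariant): `c0`, `λ`, and `X_j`, `j ∈ J`; `occ W y X` gives `occ WS y X`. TRF with `w' = w`, `κ' = κ = 1/λ`. BLK with `Jb I` = the `j ∈ J` of the block `I`, `s_I = κ om w x_I ≤ 8`. -/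
def HLF_stmt : Prop := ∀ Γ : Subgroup SL(2, ℝ), QU.SurfaceGroup Γ → HAL_stmt → ∀ (a Λ2 C3 : ℝ), 0 < a → a ≤ 1 / 1600 → 1 ≤ Λ2 → 1 ≤ C3 → ∃ (C : ℝ) (m0 : ℕ), 1 ≤ C ∧
  ∀ (m : ℕ) (εc : ℝ) (Ap At As : Finset SL(2, ℝ)) (Af : ℕ → Finset SL(2, ℝ)), m0 ≤ m → εc = Real.pi / (2 * Λ2) * Real.exp (-(3 * (4000 * m : ℕ))) → (Ap.card : ℝ) ≤ Real.exp ((1 / 2 + eta) * (4000 * m)) → (At.card : ℝ) ≤ Real.exp ((1 / 2 + eta) * (2 * (4000 * m))) →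
    (As.card : ℝ) ≤ Real.exp ((1 / 2 + eta) * (7999 * m)) → (∀ i : ℕ, i < 4000 → ((Af i).card : ℝ) ≤ Real.exp ((1 / 2 + eta) * ((4000 - i) * m))) →
    ∃ Ab : Finset SL(2, ℝ), (Ab.card : ℝ) ≤ C * Real.exp ((1 / 2 - 1 / 4000) * (4000 * m)) ∧ ∀ (l l0 : ℝ) (g : SL(2, ℝ)) (J : Finset ℤ) (cj : ℤ → ℂ) (Y : Set ℝ), 0 ≤ l → l ≤ l0 → l0 ≤ εc / 100 →
      (∀ j ∈ J, IR.JC ((IR.WS Γ Ap At As (16 * a) (4000 * m) m ∩ FG Γ Af (16 * a) m 4000) \ FW Γ Ab a (Real.exp (-(4000 * m : ℕ)))) εc l l0 g j) → GY C3 m Y →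
        ∫ v in Y, ‖∑ j ∈ J, cj j * Complex.exp (((Real.pi * j * v / 2 : ℝ) : ℂ) * Complex.I)‖ ^ 2 ≤ 32 * Real.exp (-(4000 * m) / 1000000) * ∑ j ∈ J, ‖cj j‖ ^ 2

end

end Pool.Agent.HH
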